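import Pool.Agent.Q249.SF.Stm

/-! # Project SF of helper249 (MP_f612df_an): job AT2 -/

set_option autoImplicit false

open MeasureTheory Real Set Filter Topology Q249.SF
open scoped FourierTransform SchwartzMap

namespace Q14.SF2

/-- the localised function -/
theorem loc_sch {χ θ : ℝ → ℝ} (h : IsWin χ θ) (f : 𝓢(ℝ, ℂ)) (k : ℤ) :
    ∃ F : 𝓢(ℝ, ℂ), ∀ y, F y = f y * (χ (y - k / 4) : ℂ) := by
  obtain ⟨hχ, -, hχ0, -⟩ := h
  have hs : HasCompactSupport (fun y : ℝ => f y * (χ (y - k / 4) : ℂ)) := by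
    apply HasCompactSupport.intro (K := Set.Icc ((k : ℝ) / 4 - 1 / 4) ((k : ℝ) / 4 + 1 / 4)) isCompact_Icc
    intro y hy
    have : 1 / 4 ≤ |y - k / 4| := by
      by_contra hc
      rw [not_le, abs_lt] at hc
      exact hy ⟨by linarith, by linarith⟩
    rw [hχ0 _ this]
    simp
  have hc : ContDiff ℝ (⊤ : ℕ∞) (fun y : ℝ => f y * (χ (y - k / 4) : ℂ)) := by
    apply ContDiff.mul (f.smooth ⊤)
    exact Complex.ofRealCLM.contDiff.comp (hχ.comp (contDiff_id.sub contDiff_const))
  exact ⟨hs.toSchwartzMap hc, fun y => rfl⟩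

theorem sch_int_summable (G : 𝓢(ℝ, ℂ)) : Summable fun l : ℤ => ‖G l‖ := by
  have h : Summable (fun n : ℕ => (1 : ℝ) / ((n + 1 : ℕ) : ℝ) ^ 2) :=
    (summable_nat_add_iff (f := fun n : ℕ => (1 : ℝ) / (n : ℝ) ^ 2) 1).mpr
      (Real.summable_one_div_nat_pow.mpr (by norm_num))
  set S : ℝ := 2 * (SchwartzMap.seminorm ℝ 0 0 G + SchwartzMap.seminorm ℝ 2 0 G) with hS
  have hb : ∀ x : ℝ, ‖G x‖ ≤ S * (1 / (1 + |x|) ^ 2) := by
    intro x
    have e1 := SchwartzMap.norm_le_seminorm ℝ G x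
    have e2 := SchwartzMap.norm_pow_mul_le_seminorm ℝ G 2 x
    rw [Real.norm_eq_abs] at e2
    rw [mul_one_div, le_div_iff₀ (by positivity)]
    have e3 : (1 + |x|) ^ 2 ≤ 2 * (1 + |x| ^ 2) := by nlinarith [sq_nonneg (1 - |x|)]
    calc ‖G x‖ * (1 + |x|) ^ 2 ≤ ‖G x‖ * (2 * (1 + |x| ^ 2)) :=
          mul_le_mul_of_nonneg_left e3 (norm_nonneg _)
      _ = 2 * (‖G x‖ + |x| ^ 2 * ‖G x‖) := by ring
      _ ≤ _ := by rw [hS]; linarith
  rw [summable_int_iff_summable_nat_and_neg]
  have hS0 : 0 ≤ S := by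
    have := apply_nonneg (SchwartzMap.seminorm ℝ 0 0) G
    have := apply_nonneg (SchwartzMap.seminorm ℝ 2 0) G
    rw [hS]; positivity
  constructor
  · refine Summable.of_nonneg_of_le (fun n => norm_nonneg _) (fun n => ?_) (h.mul_left S)
    refine le_trans (hb _) (le_of_eq ?_)
    rw [Int.cast_natCast, abs_of_nonneg (Nat.cast_nonneg n)]
    push_cast
    rw [add_comm]
  · refine Summable.of_nonneg_of_le (fun n => norm_nonneg _) (fun n => ?_) (h.mul_left S)
    refine le_trans (hb _) (le_of_eq ?_)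
    push_cast
    rw [abs_neg, abs_of_nonneg (Nat.cast_nonneg n)]
    rw [add_comm]

theorem t_AT2 : S_AT2 := by
  intro χ θ φ c hw haf f x
  obtain ⟨hφ, hc⟩ := haf
  have hw' := hw
  obtain ⟨-, -, hχ0, hθ0, hθ1, hsum⟩ := hw'
  choose F hF using loc_sch hw f
  have hcF : ∀ k l : ℤ, c (k, l) f = (𝓕 (F k) : 𝓢(ℝ, ℂ)) (l : ℝ) := by
    intro k l
    rw [hc, SchwartzMap.fourier_coe, Real.fourier_real_eq_integral_exp_smul]
    apply integral_congr_ae
    apply Eventually.of_forall
    intro y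
    simp only
    rw [hF, smul_eq_mul]
    have : Complex.exp (-2 * π * Complex.I * ((l : ℤ) : ℂ) * (y : ℂ)) =
        Complex.exp (((-2 * π * y * (l : ℝ) : ℝ) : ℂ) * Complex.I) := by
      congr 1
      push_cast
      ring
    rw [this]
    ring
  -- the sum over `l` for fixed `k`
  have hsl : ∀ k : ℤ, Summable fun l : ℤ => ‖c (k, l) f‖ := by
    intro k
    have := sch_int_summable (𝓕 (F k) : 𝓢(ℝ, ℂ))
    exact this.congr fun l => by rw [hcF]
  have hnφ : ∀ k l : ℤ, ‖φ (k, l) x‖ = |θ (x - k / 4)| := by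
    intro k l
    rw [hφ, norm_mul]
    have : ‖Complex.exp (2 * π * Complex.I * ((l : ℤ) : ℂ) * (x : ℂ))‖ = 1 := by
      have e : 2 * π * Complex.I * ((l : ℤ) : ℂ) * (x : ℂ) = ((2 * π * l * x : ℝ) : ℂ) * Complex.I := by
        push_cast
        ring
      rw [e, Complex.norm_exp_ofReal_mul_I]
    rw [this, mul_one, Complex.norm_real, Real.norm_eq_abs]
  have hsl' : ∀ k : ℤ, Summable fun l : ℤ => ‖c (k, l) f * φ (k, l) x‖ := by
    intro k
    refine ((hsl k).mul_right |θ (x - k / 4)|).congr fun l => ?_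
    rw [norm_mul, hnφ]
  have hfib : ∀ k : ℤ, HasSum (fun l : ℤ => c (k, l) f * φ (k, l) x) (f x * (χ (x - k / 4) : ℂ)) := by
    intro k
    have hs : Summable fun l : ℤ => c (k, l) f * φ (k, l) x := (hsl' k).of_norm
    have e : ∑' l : ℤ, c (k, l) f * φ (k, l) x = f x * (χ (x - k / 4) : ℂ) := by
      have e1 : ∀ l : ℤ, c (k, l) f * φ (k, l) x = (θ (x - k / 4) : ℂ) *
          ((𝓕 (F k) : 𝓢(ℝ, ℂ)) (l : ℝ) * fourier l (x : UnitAddCircle)) := by
        intro l
        rw [hcF, hφ, fourier_coe_apply]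
        push_cast
        rw [div_one]
        ring
      rw [tsum_congr e1, tsum_mul_left]
      have hP := SchwartzMap.tsum_eq_tsum_fourier (F k) x
      rw [← hP]
      by_cases hx : 1 / 2 ≤ |x - k / 4|
      · rw [hθ0 _ hx, hχ0 _ (by linarith)]
        simp
      · rw [not_le] at hx
        have e2 : ∑' n : ℤ, (F k) (x + n) = F k x := by
          rw [tsum_eq_single 0]
          · simp
          · intro n hn
            rw [hF]
            have h1 : (1 : ℝ) ≤ |(n : ℝ)| := by
              rw [← Int.cast_abs]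
              exact_mod_cast Int.one_le_abs hn
            have h2 : |(n : ℝ)| ≤ |x + n - k / 4| + |x - k / 4| := by
              have := abs_sub (x + n - k / 4) (x - k / 4)
              have e3 : x + n - k / 4 - (x - k / 4) = (n : ℝ) := by ring
              rw [e3] at this
              exact this
            rw [hχ0 _ (by linarith)]
            simp
        rw [e2, hF]
        by_cases hx4 : |x - k / 4| ≤ 1 / 4
        · rw [hθ1 _ hx4]
          simp
        · rw [hχ0 _ (not_le.mp hx4).le]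
          simp
    rw [← e]
    exact hs.hasSum
  -- summability on the product
  have hfin : Set.Finite {k : ℤ | |x - k / 4| < 1 / 2} := by
    apply Set.Finite.subset (Set.finite_Icc (⌊4 * x - 2⌋) (⌈4 * x + 2⌉))
    intro k hk
    have hk' : |x - (k : ℝ) / 4| < 1 / 2 := hk
    rw [abs_lt] at hk'
    constructor
    · rw [← @Int.cast_le ℝ]
      have := Int.floor_le (4 * x - 2)
      linarith
    · rw [← @Int.cast_le ℝ]
      have := Int.le_ceil (4 * x + 2)
      linarith
  have hS : Summable fun a : ℤ × ℤ => c a f * φ a x := by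
    apply Summable.of_norm
    rw [summable_prod_of_nonneg (fun a => norm_nonneg _)]
    refine ⟨hsl', ?_⟩
    apply summable_of_ne_finset_zero (s := hfin.toFinset)
    intro k hk
    rw [Set.Finite.mem_toFinset] at hk
    have hk' : 1 / 2 ≤ |x - (k : ℝ) / 4| := not_lt.mp hk
    have : ∀ l : ℤ, ‖c (k, l) f * φ (k, l) x‖ = 0 := by
      intro l
      rw [norm_mul, hnφ, hθ0 _ hk', abs_zero, mul_zero]
    rw [tsum_congr this, tsum_zero]
  have h1 := hS.hasSum.prod_fiberwise hfib
  have h2 : HasSum (fun k : ℤ => f x * (χ (x - k / 4) : ℂ)) (f x * 1) := by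
    apply HasSum.mul_left
    have := (Complex.ofRealCLM.hasSum (hsum x))
    simpa using this
  have h3 := h1.unique h2
  rw [mul_one] at h3
  rw [← h3]
  exact hS.hasSum

end Q14.SF2
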