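import Pool.Agent.Q249.SF.Stm

/-! # Project SF of helper249 (MP_f612df_an): job KEY -/

set_option autoImplicit false

open MeasureTheory Real Set Filter Topology Q249.SF
open scoped FourierTransform SchwartzMap

namespace Q14.SF2

theorem of_sq {u D B : ℝ} (hu : 0 ≤ u) (hD : 0 ≤ D) (hB : 0 ≤ B) (h : u ^ 2 ≤ D * B ^ 2) :
    u ≤ Real.sqrt D * B := by
  have h1 : u ^ 2 ≤ (Real.sqrt D * B) ^ 2 := by rw [mul_pow, Real.sq_sqrt hD]; exact h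
  exact (sq_le_sq₀ hu (mul_nonneg (Real.sqrt_nonneg D) hB)).mp h1

theorem int_sq (f : 𝓢(ℝ, ℂ)) : Integrable (fun t => ‖f t‖ ^ 2) :=
  (f.memLp 2 volume).integrable_norm_pow (by norm_num)

theorem one_le_pow_abs (n : ℤ) (k : ℕ) : (1 : ℝ) ≤ (1 + |(n : ℝ)|) ^ k :=
  one_le_pow₀ (by linarith [abs_nonneg (n : ℝ)])

theorem dw_nonneg {b e : ℕ} {N : ℝ} (hN : 0 ≤ N) (r : ℕ) (n : ℤ) : 0 ≤ dw b e N r n := by
  unfold dw
  have h1 : 0 ≤ (1 + |(n : ℝ)|) := by positivity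
  have h2 : 0 ≤ min 1 ((1 + |(n : ℝ)|) ^ e / N) := le_min zero_le_one (by positivity)
  positivity

theorem dw_ge {b e k : ℕ} (hk : k ≤ b) {N : ℝ} (hN : 1 ≤ N) (r : ℕ) (n : ℤ) :
    (1 + |(n : ℝ)|) ^ k ≤ N ^ r * dw b e N r n := by
  unfold dw
  have hN0 : 0 < N := by linarith
  have h0 : (1 : ℝ) ≤ 1 + |(n : ℝ)| := by linarith [abs_nonneg (n : ℝ)]
  have h1 : (1 + |(n : ℝ)|) ^ k ≤ (1 + |(n : ℝ)|) ^ b := pow_le_pow_right₀ h0 hk
  have h2 : 1 / N ≤ min 1 ((1 + |(n : ℝ)|) ^ e / N) := by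
    apply le_min
    · rw [div_le_one hN0]; exact hN
    · exact div_le_div_of_nonneg_right (one_le_pow_abs n e) hN0.le
  have h3 : (1 / N) ^ r ≤ min 1 ((1 + |(n : ℝ)|) ^ e / N) ^ r := pow_le_pow_left₀ (by positivity) h2 r
  have h4 : N ^ r * (1 / N) ^ r = 1 := by
    rw [← mul_pow, mul_one_div_cancel hN0.ne', one_pow]
  calc (1 + |(n : ℝ)|) ^ k ≤ (1 + |(n : ℝ)|) ^ b := h1
    _ = (1 + |(n : ℝ)|) ^ b * (N ^ r * (1 / N) ^ r) := by rw [h4, mul_one]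
    _ = N ^ r * ((1 + |(n : ℝ)|) ^ b * (1 / N) ^ r) := by ring
    _ ≤ _ := by
      apply mul_le_mul_of_nonneg_left _ (by positivity)
      exact mul_le_mul_of_nonneg_left h3 (by positivity)

theorem dw_sub {b0 b e : ℕ} (hb : b0 ≤ b) {N S : ℝ} (hN : 0 < N) (hS : 1 ≤ S) (r : ℕ) (n : ℤ) :
    dw b0 e (N / S) r n ≤ S ^ r * dw b e N r n := by
  unfold dw
  have hS0 : 0 < S := by linarith
  have h0 : (1 : ℝ) ≤ 1 + |(n : ℝ)| := by linarith [abs_nonneg (n : ℝ)]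
  have h1 : (1 + |(n : ℝ)|) ^ b0 ≤ (1 + |(n : ℝ)|) ^ b := pow_le_pow_right₀ h0 hb
  have h2 : min 1 ((1 + |(n : ℝ)|) ^ e / (N / S)) ≤ S * min 1 ((1 + |(n : ℝ)|) ^ e / N) := by
    rw [mul_min_of_nonneg _ _ hS0.le, mul_one]
    apply le_min
    · exact le_trans (min_le_left _ _) hS
    · apply le_trans (min_le_right _ _)
      apply le_of_eq
      field_simp
  have h5 : 0 ≤ min 1 ((1 + |(n : ℝ)|) ^ e / (N / S)) := le_min zero_le_one (by positivity)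
  have h3 : min 1 ((1 + |(n : ℝ)|) ^ e / (N / S)) ^ r ≤ (S * min 1 ((1 + |(n : ℝ)|) ^ e / N)) ^ r :=
    pow_le_pow_left₀ h5 h2 r
  rw [mul_pow] at h3
  calc (1 + |(n : ℝ)|) ^ b0 * min 1 ((1 + |(n : ℝ)|) ^ e / (N / S)) ^ r
      ≤ (1 + |(n : ℝ)|) ^ b * (S ^ r * min 1 ((1 + |(n : ℝ)|) ^ e / N) ^ r) :=
        mul_le_mul h1 h3 (by positivity) (by positivity)
    _ = _ := by ring

theorem setInt_mono {g : ℝ → ℝ} (hg : Integrable g) (h0 : ∀ t, 0 ≤ g t) {s t : Set ℝ} (h : s ⊆ t) :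
    ∫ u in s, g u ≤ ∫ u in t, g u :=
  setIntegral_mono_set hg.integrableOn (Eventually.of_forall h0) (Eventually.of_forall h)

theorem setInt_le {g : ℝ → ℝ} (hg : Integrable g) (h0 : ∀ t, 0 ≤ g t) (s : Set ℝ) :
    ∫ u in s, g u ≤ ∫ u, g u :=
  setIntegral_le_integral hg (Eventually.of_forall h0)

theorem t_KEY (hTAI : S_TAI) : S_KEY := by
  intro α β θ x y hα hαβ hθ hθ1 hx hy h0 φ c hc
  obtain ⟨C0, k0, h0⟩ := h0
  obtain ⟨b0, e, hT⟩ := hTAI α β θ x y hα hαβ hθ hθ1 hx hy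
  have hτ0 : 0 < min α 1 := lt_min hα one_pos
  refine ⟨max b0 k0, e, min α 1, hτ0, ?_⟩
  intro r
  obtain ⟨C1, M, hC1, hM, hT⟩ := hT r
  obtain ⟨-, -, ⟨C2, hC2, h3⟩, h4⟩ := hc
  obtain ⟨C3, hC3, h4⟩ := h4 r
  set τ := min α 1 with hτ
  set S0 : ℝ := (32 : ℝ) ^ (α + 1) with hS0
  have hS32 : 32 ≤ S0 := by
    rw [hS0]
    calc (32 : ℝ) = 32 ^ (1 : ℝ) := (Real.rpow_one 32).symm
      _ ≤ _ := Real.rpow_le_rpow_of_exponent_le (by norm_num) (by linarith)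
  have hSα : (32 : ℝ) ^ α ≤ S0 := Real.rpow_le_rpow_of_exponent_le (by norm_num) (by linarith)
  set N1 : ℝ := max S0 (32 * M) with hN1
  set K0 : ℝ := |C0| with hK0
  have hK00 : 0 ≤ K0 := abs_nonneg _
  have hN10 : 0 ≤ N1 := le_trans (by linarith) (le_max_left _ _)
  set D1 : ℝ := 2 * C3 * K0 * N1 ^ (2 * r) with hD1
  set E1 : ℝ := C1 * S0 ^ (2 * r) * (1 + K0) with hE1
  have hD10 : 0 ≤ D1 := by positivity
  have hE10 : 0 ≤ E1 := by positivity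
  have hD0 : 0 ≤ D1 + C2 * E1 + C3 * (E1 + 4 ^ r * K0) := by positivity
  refine ⟨Real.sqrt (D1 + C2 * E1 + C3 * (E1 + 4 ^ r * K0)), Real.sqrt_nonneg _, ?_⟩
  intro a f B hB hf hF
  apply of_sq (norm_nonneg _) hD0 hB
  set s : ℝ := 1 + |(a.1 : ℝ)| + |(a.2 : ℝ)| with hs
  have hs1 : 1 ≤ s := by
    have := abs_nonneg (a.1 : ℝ)
    have := abs_nonneg (a.2 : ℝ)
    linarith
  set N : ℝ := s ^ τ with hN
  have hNp : 0 < N := Real.rpow_pos_of_pos (by linarith) _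
  have hN1' : 1 ≤ N := Real.one_le_rpow hs1 hτ0.le
  have hNs : N ≤ s := by
    calc N ≤ s ^ (1 : ℝ) := Real.rpow_le_rpow_of_exponent_le hs1 (min_le_right _ _)
      _ = s := Real.rpow_one s
  have hNα : N ≤ s ^ α := Real.rpow_le_rpow_of_exponent_le hs1 (min_le_left _ _)
  set I : ℝ := ∫ t, ‖f t‖ ^ 2 with hI
  have hIF : ∫ t, ‖(𝓕 f : 𝓢(ℝ, ℂ)) t‖ ^ 2 = I := SchwartzMap.integral_norm_sq_fourier f
  have hI0 : 0 ≤ I := integral_nonneg fun t => by positivity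
  have hfi := int_sq f
  have hFi := int_sq (𝓕 f : 𝓢(ℝ, ℂ))
  have hf0 : ∀ t : ℝ, 0 ≤ ‖f t‖ ^ 2 := fun t => by positivity
  have hF0 : ∀ t : ℝ, 0 ≤ ‖(𝓕 f : 𝓢(ℝ, ℂ)) t‖ ^ 2 := fun t => by positivity
  -- the basic bound
  have hIb : I ≤ K0 * N ^ (2 * r) * B ^ 2 := by
    have h5 := h0 f (N ^ r * B) (by positivity) (by
      intro n
      calc (1 + |(n : ℝ)|) ^ k0 * ‖f (x n)‖ ≤ (N ^ r * dw (max b0 k0) e N r n) * ‖f (x n)‖ :=
            mul_le_mul_of_nonneg_right (dw_ge (le_max_right _ _) hN1' r n) (norm_nonneg _)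
        _ = N ^ r * (dw (max b0 k0) e N r n * ‖f (x n)‖) := by ring
        _ ≤ N ^ r * B := mul_le_mul_of_nonneg_left (hf n) (by positivity)) (by
      intro n
      calc (1 + |(n : ℝ)|) ^ k0 * ‖(𝓕 f : 𝓢(ℝ, ℂ)) (y n)‖ ≤ (N ^ r * dw (max b0 k0) e N r n) * ‖(𝓕 f : 𝓢(ℝ, ℂ)) (y n)‖ :=
            mul_le_mul_of_nonneg_right (dw_ge (le_max_right _ _) hN1' r n) (norm_nonneg _)
        _ = N ^ r * (dw (max b0 k0) e N r n * ‖(𝓕 f : 𝓢(ℝ, ℂ)) (y n)‖) := by ring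
        _ ≤ N ^ r * B := mul_le_mul_of_nonneg_left (hF n) (by positivity))
    calc I ≤ C0 * (N ^ r * B) ^ 2 := h5
      _ ≤ K0 * (N ^ r * B) ^ 2 := mul_le_mul_of_nonneg_right (le_abs_self _) (by positivity)
      _ = _ := by ring
  have hB2 : 0 ≤ B ^ 2 := by positivity
  by_cases hbig : S0 ≤ N ∧ 32 * M ≤ s
  · obtain ⟨hb1, hb2⟩ := hbig
    -- the tail inequality
    have hN' : 1 ≤ N / S0 := by
      rw [le_div_iff₀ (by linarith)]
      linarith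
    have hS1 : 1 ≤ S0 := by linarith
    have hTE := hT (N / S0) hN' f (S0 ^ r * B) (by positivity) (by
      intro n
      calc dw b0 e (N / S0) r n * ‖f (x n)‖ ≤ (S0 ^ r * dw (max b0 k0) e N r n) * ‖f (x n)‖ :=
            mul_le_mul_of_nonneg_right (dw_sub (le_max_left _ _) hNp hS1 r n) (norm_nonneg _)
        _ = S0 ^ r * (dw (max b0 k0) e N r n * ‖f (x n)‖) := by ring
        _ ≤ S0 ^ r * B := mul_le_mul_of_nonneg_left (hf n) (by positivity)) (by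
      intro n
      calc dw b0 e (N / S0) r n * ‖(𝓕 f : 𝓢(ℝ, ℂ)) (y n)‖ ≤ (S0 ^ r * dw (max b0 k0) e N r n) * ‖(𝓕 f : 𝓢(ℝ, ℂ)) (y n)‖ :=
            mul_le_mul_of_nonneg_right (dw_sub (le_max_left _ _) hNp hS1 r n) (norm_nonneg _)
        _ = S0 ^ r * (dw (max b0 k0) e N r n * ‖(𝓕 f : 𝓢(ℝ, ℂ)) (y n)‖) := by ring
        _ ≤ S0 ^ r * B := mul_le_mul_of_nonneg_left (hF n) (by positivity))
    have hE : C1 * ((S0 ^ r * B) ^ 2 + (1 / (N / S0)) ^ (2 * r) * I) ≤ E1 * B ^ 2 := by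
      have e1 : (1 / (N / S0)) ^ (2 * r) * N ^ (2 * r) = S0 ^ (2 * r) := by
        rw [← mul_pow]
        congr 1
        field_simp
      have e2 : (1 / (N / S0)) ^ (2 * r) * I ≤ S0 ^ (2 * r) * K0 * B ^ 2 := by
        calc (1 / (N / S0)) ^ (2 * r) * I ≤ (1 / (N / S0)) ^ (2 * r) * (K0 * N ^ (2 * r) * B ^ 2) :=
              mul_le_mul_of_nonneg_left hIb (by positivity)
          _ = ((1 / (N / S0)) ^ (2 * r) * N ^ (2 * r)) * K0 * B ^ 2 := by ring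
          _ = _ := by rw [e1]
      calc C1 * ((S0 ^ r * B) ^ 2 + (1 / (N / S0)) ^ (2 * r) * I)
          ≤ C1 * ((S0 ^ r * B) ^ 2 + S0 ^ (2 * r) * K0 * B ^ 2) :=
            mul_le_mul_of_nonneg_left (by linarith) hC1
        _ = _ := by rw [hE1]; ring
    have hTE2 := le_trans hTE hE
    have hn1 : 0 ≤ ∫ t in {t : ℝ | M ≤ |t| ∧ N / S0 ≤ |t| ^ α}, ‖f t‖ ^ 2 :=
      integral_nonneg fun t => by positivity
    have hn2 : 0 ≤ ∫ s in {s : ℝ | M ≤ |s| ∧ N / S0 ≤ |s|}, ‖(𝓕 f : 𝓢(ℝ, ℂ)) s‖ ^ 2 :=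
      integral_nonneg fun t => by positivity
    rcases le_total |(a.2 : ℝ)| |(a.1 : ℝ)| with hkl | hkl
    · -- `|k| ≥ |l|`
      have hk1 : s / 4 ≤ |(a.1 : ℝ)| := by linarith
      have hk2 : 2 ≤ |a.1| := by
        have h6 : (2 : ℝ) ≤ |(a.1 : ℝ)| := by linarith
        rw [← Int.cast_abs] at h6
        exact_mod_cast h6
      have hsub : {t : ℝ | |(a.1 : ℝ)| / 8 ≤ |t|} ⊆ {t : ℝ | M ≤ |t| ∧ N / S0 ≤ |t| ^ α} := by
        intro t ht
        rw [Set.mem_ofPred_eq] at ht ⊢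
        have ht1 : s / 32 ≤ |t| := by linarith
        refine ⟨by linarith, ?_⟩
        have h7 : (s / 32) ^ α ≤ |t| ^ α := Real.rpow_le_rpow (by linarith) ht1 hα.le
        refine le_trans ?_ h7
        rw [Real.div_rpow (by linarith) (by norm_num)]
        apply div_le_div₀ (Real.rpow_nonneg (by linarith) _) hNα (by positivity) hSα
      have h8 := h3 a f hk2
      have h9 := setInt_mono hfi hf0 hsub
      calc ‖c a f‖ ^ 2 ≤ C2 * ∫ t in {t : ℝ | |(a.1 : ℝ)| / 8 ≤ |t|}, ‖f t‖ ^ 2 := h8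
        _ ≤ C2 * (E1 * B ^ 2) := mul_le_mul_of_nonneg_left (by linarith) hC2
        _ = (0 + C2 * E1 + 0) * B ^ 2 := by ring
        _ ≤ _ := by
          apply mul_le_mul_of_nonneg_right _ hB2
          have : 0 ≤ C3 * (E1 + 4 ^ r * K0) := by positivity
          linarith
    · -- `|l| ≥ |k|`
      have hl1 : s / 4 ≤ |(a.2 : ℝ)| := by linarith
      have hsub : {t : ℝ | |(a.2 : ℝ)| / 2 ≤ |t|} ⊆ {t : ℝ | M ≤ |t| ∧ N / S0 ≤ |t|} := by
        intro t ht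
        rw [Set.mem_ofPred_eq] at ht ⊢
        have ht1 : s / 32 ≤ |t| := by linarith
        refine ⟨by linarith, ?_⟩
        refine le_trans ?_ ht1
        exact div_le_div₀ (by linarith) hNs (by norm_num) hS32
      have h8 := h4 a f
      have h9 := setInt_mono hFi hF0 hsub
      have h10 : (1 / (1 + |(a.2 : ℝ)|)) ^ (2 * r) * I ≤ 4 ^ r * K0 * B ^ 2 := by
        have e1 : 1 / (1 + |(a.2 : ℝ)|) ≤ 2 / N := by
          rw [div_le_div_iff₀ (by positivity) hNp]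
          linarith
        have e2 : (1 / (1 + |(a.2 : ℝ)|)) ^ (2 * r) ≤ (2 / N) ^ (2 * r) :=
          pow_le_pow_left₀ (by positivity) e1 _
        calc (1 / (1 + |(a.2 : ℝ)|)) ^ (2 * r) * I ≤ (2 / N) ^ (2 * r) * (K0 * N ^ (2 * r) * B ^ 2) :=
              mul_le_mul e2 hIb hI0 (by positivity)
          _ = (2 / N * N) ^ (2 * r) * K0 * B ^ 2 := by rw [mul_pow]; ring
          _ = _ := by
            rw [div_mul_cancel₀ _ hNp.ne', pow_mul]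
            norm_num
      calc ‖c a f‖ ^ 2 ≤ C3 * ((∫ s in {s : ℝ | |(a.2 : ℝ)| / 2 ≤ |s|}, ‖(𝓕 f : 𝓢(ℝ, ℂ)) s‖ ^ 2) +
            (1 / (1 + |(a.2 : ℝ)|)) ^ (2 * r) * ∫ t, ‖f t‖ ^ 2) := h8
        _ ≤ C3 * (E1 * B ^ 2 + 4 ^ r * K0 * B ^ 2) := mul_le_mul_of_nonneg_left (by linarith) hC3
        _ = (0 + 0 + C3 * (E1 + 4 ^ r * K0)) * B ^ 2 := by ring
        _ ≤ _ := by
          apply mul_le_mul_of_nonneg_right _ hB2
          have : 0 ≤ C2 * E1 := by positivity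
          linarith
  · -- `s` is bounded
    have hNN : N ≤ N1 := by
      rw [not_and_or] at hbig
      rcases hbig with h | h
      · exact le_trans (not_le.mp h).le (le_max_left _ _)
      · exact le_trans (le_trans hNs (not_le.mp h).le) (le_max_right _ _)
    have h8 := h4 a f
    have h9 := setInt_le hFi hF0 {s : ℝ | |(a.2 : ℝ)| / 2 ≤ |s|}
    rw [hIF] at h9
    have h10 : (1 / (1 + |(a.2 : ℝ)|)) ^ (2 * r) ≤ 1 := by
      apply pow_le_one₀ (by positivity)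
      rw [div_le_one (by positivity)]
      linarith [abs_nonneg (a.2 : ℝ)]
    have h11 : (1 / (1 + |(a.2 : ℝ)|)) ^ (2 * r) * I ≤ I := by nlinarith
    have h12 : I ≤ K0 * N1 ^ (2 * r) * B ^ 2 := by
      refine le_trans hIb ?_
      apply mul_le_mul_of_nonneg_right _ hB2
      apply mul_le_mul_of_nonneg_left _ hK00
      exact pow_le_pow_left₀ hNp.le hNN _
    calc ‖c a f‖ ^ 2 ≤ C3 * ((∫ s in {s : ℝ | |(a.2 : ℝ)| / 2 ≤ |s|}, ‖(𝓕 f : 𝓢(ℝ, ℂ)) s‖ ^ 2) +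
          (1 / (1 + |(a.2 : ℝ)|)) ^ (2 * r) * ∫ t, ‖f t‖ ^ 2) := h8
      _ ≤ C3 * (2 * (K0 * N1 ^ (2 * r) * B ^ 2)) := mul_le_mul_of_nonneg_left (by linarith) hC3
      _ = (D1 + 0 + 0) * B ^ 2 := by rw [hD1]; ring
      _ ≤ _ := by
        apply mul_le_mul_of_nonneg_right _ hB2
        have : 0 ≤ C2 * E1 := by positivity
        have : 0 ≤ C3 * (E1 + 4 ^ r * K0) := by positivity
        linarith

end Q14.SF2
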