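import Pool.Agent.Q249.SF.Stm

/-! # Project SF of helper249 (MP_f612df_an): job SUM -/

set_option autoImplicit false

open MeasureTheory Real Set Filter Topology Q249.SF
open scoped FourierTransform SchwartzMap

namespace Q14.SF2

theorem summable_one : Summable (fun n : ℤ => (1 / (1 + |(n : ℝ)|)) ^ 2) := by
  rw [summable_int_iff_summable_nat_and_neg]
  have h : Summable (fun n : ℕ => (1 : ℝ) / ((n + 1 : ℕ) : ℝ) ^ 2) :=
    (summable_nat_add_iff (f := fun n : ℕ => (1 : ℝ) / (n : ℝ) ^ 2) 1).mpr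
      (Real.summable_one_div_nat_pow.mpr (by norm_num))
  have e : ∀ n : ℕ, (1 / (1 + |((n : ℤ) : ℝ)|)) ^ 2 = (1 : ℝ) / ((n + 1 : ℕ) : ℝ) ^ 2 := by
    intro n
    rw [Int.cast_natCast, abs_of_nonneg (Nat.cast_nonneg n), div_pow, one_pow]
    push_cast
    rw [add_comm]
  have e' : ∀ n : ℕ, (1 / (1 + |((-(n : ℤ) : ℤ) : ℝ)|)) ^ 2 = (1 : ℝ) / ((n + 1 : ℕ) : ℝ) ^ 2 := by
    intro n
    rw [← e n]
    push_cast
    rw [abs_neg]
  constructor
  · exact h.congr fun n => (e n).symm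
  · exact h.congr fun n => (e' n).symm

theorem summable_sa : Summable (fun a : ℤ × ℤ => (1 / (1 + |(a.1 : ℝ)| + |(a.2 : ℝ)|)) ^ 4) := by
  have h := Summable.mul_of_nonneg summable_one summable_one (fun n => by positivity) (fun n => by positivity)
  refine Summable.of_nonneg_of_le (fun a => by positivity) (fun a => ?_) h
  have h1 := abs_nonneg (a.1 : ℝ)
  have h2 := abs_nonneg (a.2 : ℝ)
  have e1 : (1 / (1 + |(a.1 : ℝ)| + |(a.2 : ℝ)|)) ^ 4 =
      (1 / (1 + |(a.1 : ℝ)| + |(a.2 : ℝ)|)) ^ 2 * (1 / (1 + |(a.1 : ℝ)| + |(a.2 : ℝ)|)) ^ 2 := by ring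
  rw [e1]
  apply mul_le_mul _ _ (by positivity) (by positivity)
  · apply pow_le_pow_left₀ (by positivity)
    apply one_div_le_one_div_of_le (by positivity)
    linarith
  · apply pow_le_pow_left₀ (by positivity)
    apply one_div_le_one_div_of_le (by positivity)
    linarith

section

variable (φ : ℤ × ℤ → 𝓢(ℝ, ℂ)) (m : ℤ × ℤ → (Rapid × Rapid) →ₗ[ℂ] ℂ)
  (h1 : ∀ p q : ℕ, ∃ (C : ℝ) (k : ℕ), ∀ a, SchwartzMap.seminorm ℂ p q (φ a) ≤
    C * (1 + |(a.1 : ℝ)| + |(a.2 : ℝ)|) ^ k)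
  (h2 : ∀ j : ℕ, ∃ (C : ℝ) (k : ℕ), ∀ a c, ‖m a c‖ ≤
    C * (1 / (1 + |(a.1 : ℝ)| + |(a.2 : ℝ)|)) ^ j * (Rapid.sn k c.1 + Rapid.sn k c.2))

include h1 h2

theorem term_bd (p q : ℕ) : ∃ (C : ℝ) (k : ℕ), 0 ≤ C ∧ ∀ a c,
    SchwartzMap.seminorm ℂ p q (m a c • φ a) ≤
      C * (1 / (1 + |(a.1 : ℝ)| + |(a.2 : ℝ)|)) ^ 4 * (Rapid.sn k c.1 + Rapid.sn k c.2) := by
  obtain ⟨C1, k1, hC1⟩ := h1 p q
  obtain ⟨C2, k2, hC2⟩ := h2 (k1 + 4)
  refine ⟨|C1| * |C2|, k2, by positivity, ?_⟩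
  intro a c
  set s : ℝ := 1 + |(a.1 : ℝ)| + |(a.2 : ℝ)| with hs
  have hs0 : 0 < s := by positivity
  have hsn : 0 ≤ Rapid.sn k2 c.1 + Rapid.sn k2 c.2 := add_nonneg (apply_nonneg _ _) (apply_nonneg _ _)
  rw [map_smul_eq_mul]
  have e1 : ‖m a c‖ ≤ |C2| * (1 / s) ^ (k1 + 4) * (Rapid.sn k2 c.1 + Rapid.sn k2 c.2) := by
    refine le_trans (hC2 a c) ?_
    apply mul_le_mul_of_nonneg_right _ hsn
    exact mul_le_mul_of_nonneg_right (le_abs_self _) (by positivity)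
  have e2 : SchwartzMap.seminorm ℂ p q (φ a) ≤ |C1| * s ^ k1 :=
    le_trans (hC1 a) (mul_le_mul_of_nonneg_right (le_abs_self _) (by positivity))
  have e3 : (1 / s) ^ (k1 + 4) * s ^ k1 = (1 / s) ^ 4 := by
    rw [pow_add, mul_comm ((1 / s) ^ k1), mul_assoc, ← mul_pow, one_div_mul_cancel hs0.ne', one_pow, mul_one]
  calc ‖m a c‖ * SchwartzMap.seminorm ℂ p q (φ a)
      ≤ (|C2| * (1 / s) ^ (k1 + 4) * (Rapid.sn k2 c.1 + Rapid.sn k2 c.2)) * (|C1| * s ^ k1) :=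
        mul_le_mul e1 e2 (apply_nonneg _ _) (by positivity)
    _ = |C1| * |C2| * ((1 / s) ^ (k1 + 4) * s ^ k1) * (Rapid.sn k2 c.1 + Rapid.sn k2 c.2) := by ring
    _ = _ := by rw [e3]

theorem summable_semi (p q : ℕ) (c : Rapid × Rapid) :
    Summable fun a => SchwartzMap.seminorm ℂ p q (m a c • φ a) := by
  obtain ⟨C, k, -, h⟩ := term_bd φ m h1 h2 p q
  refine Summable.of_nonneg_of_le (fun a => apply_nonneg _ _) (fun a => h a c) ?_
  exact ((summable_sa.mul_left C).mul_right _)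

theorem summable_pt (c : Rapid × Rapid) (x : ℝ) : Summable fun a => (m a c • φ a) x := by
  refine Summable.of_norm_bounded (summable_semi φ m h1 h2 0 0 c) fun a => ?_
  exact SchwartzMap.norm_le_seminorm ℂ _ x

theorem bd_iter (c : Rapid × Rapid) (n : ℕ) (a : ℤ × ℤ) (x : ℝ) :
    ‖iteratedFDeriv ℝ n (⇑(m a c • φ a)) x‖ ≤ SchwartzMap.seminorm ℂ 0 n (m a c • φ a) :=
  SchwartzMap.norm_iteratedFDeriv_le_seminorm ℂ _ n x

theorem semi_bd (p n : ℕ) (c : Rapid × Rapid) (x : ℝ) :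
    ‖x‖ ^ p * ‖iteratedFDeriv ℝ n (fun x => ∑' a, (m a c • φ a) x) x‖ ≤
      ∑' a, SchwartzMap.seminorm ℂ p n (m a c • φ a) := by
  rw [iteratedFDeriv_tsum_apply (𝕜 := ℝ) (N := ⊤) (f := fun a => ⇑(m a c • φ a))
    (v := fun n a => SchwartzMap.seminorm ℂ 0 n (m a c • φ a))
    (fun a => (m a c • φ a).smooth ⊤) (fun k _ => summable_semi φ m h1 h2 0 k c)
    (fun k a x _ => bd_iter φ m h1 h2 c k a x) le_top x]
  have hs : Summable fun a => ‖iteratedFDeriv ℝ n (⇑(m a c • φ a)) x‖ :=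
    Summable.of_nonneg_of_le (fun a => norm_nonneg _) (fun a => bd_iter φ m h1 h2 c n a x)
      (summable_semi φ m h1 h2 0 n c)
  calc ‖x‖ ^ p * ‖∑' a, iteratedFDeriv ℝ n (⇑(m a c • φ a)) x‖
      ≤ ‖x‖ ^ p * ∑' a, ‖iteratedFDeriv ℝ n (⇑(m a c • φ a)) x‖ :=
        mul_le_mul_of_nonneg_left (norm_tsum_le_tsum_norm hs) (by positivity)
    _ = ∑' a, ‖x‖ ^ p * ‖iteratedFDeriv ℝ n (⇑(m a c • φ a)) x‖ := (tsum_mul_left).symm
    _ ≤ _ := by
      refine (hs.mul_left (‖x‖ ^ p)).tsum_le_tsum (fun a => ?_) (summable_semi φ m h1 h2 p n c)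
      exact SchwartzMap.le_seminorm ℂ p n _ x

/-- the sum as a Schwartz function -/
theorem sum_sch (c : Rapid × Rapid) : ∃ F : 𝓢(ℝ, ℂ), ∀ x, F x = ∑' a, (m a c • φ a) x := by
  refine ⟨{ toFun := fun x => ∑' a, (m a c • φ a) x, smooth' := ?_, decay' := ?_ }, fun x => rfl⟩
  · exact contDiff_tsum (𝕜 := ℝ) (N := ⊤) (f := fun a => ⇑(m a c • φ a))
      (v := fun n a => SchwartzMap.seminorm ℂ 0 n (m a c • φ a))
      (fun a => (m a c • φ a).smooth ⊤) (fun k _ => summable_semi φ m h1 h2 0 k c)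
      (fun k a x _ => bd_iter φ m h1 h2 c k a x)
  · intro p n
    exact ⟨_, fun x => semi_bd φ m h1 h2 p n c x⟩

end

theorem t_SUM : S_SUM := by
  intro φ m h1 h2
  choose F hF using sum_sch φ m h1 h2
  have hsum := summable_pt φ m h1 h2
  set L : (Rapid × Rapid) →ₗ[ℂ] 𝓢(ℝ, ℂ) :=
    { toFun := F
      map_add' := by
        intro c d
        ext x
        rw [add_apply, hF, hF, hF, ← (hsum c x).tsum_add (hsum d x)]
        apply tsum_congr
        intro a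
        rw [map_add, add_smul, add_apply]
      map_smul' := by
        intro z c
        ext x
        rw [RingHom.id_apply, smul_apply, hF, hF, smul_eq_mul, ← tsum_mul_left]
        apply tsum_congr
        intro a
        rw [map_smul, smul_assoc, smul_apply, smul_eq_mul] } with hL
  have hLF : ∀ c, L c = F c := fun c => rfl
  have hcont : Continuous L := by
    apply WithSeminorms.continuous_of_continuous_comp (schwartz_withSeminorms ℂ ℝ ℂ)
    rintro ⟨p, n⟩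
    obtain ⟨C, k, hC, hbd⟩ := term_bd φ m h1 h2 p n
    set T : ℝ := ∑' a : ℤ × ℤ, (1 / (1 + |(a.1 : ℝ)| + |(a.2 : ℝ)|)) ^ 4 with hT
    have hT0 : 0 ≤ T := tsum_nonneg fun a => by positivity
    set D : NNReal := Real.toNNReal (C * T) with hD
    have hDc : (D : ℝ) = C * T := Real.coe_toNNReal _ (mul_nonneg hC hT0)
    set q : Seminorm ℂ (Rapid × Rapid) := D •
      ((Rapid.sn k).comp (LinearMap.fst ℂ Rapid Rapid) + (Rapid.sn k).comp (LinearMap.snd ℂ Rapid Rapid)) with hq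
    have hsk : Continuous (Rapid.sn k) := Rapid.withSeminorms.continuous_seminorm k
    have hqc : Continuous q := by
      have e1 : ∀ c, q c = C * T * (Rapid.sn k c.1 + Rapid.sn k c.2) := fun c => by rw [← hDc]; rfl
      have : (q : (Rapid × Rapid) → ℝ) = fun c => C * T * (Rapid.sn k c.1 + Rapid.sn k c.2) := funext e1
      rw [this]
      exact continuous_const.mul ((hsk.comp continuous_fst).add (hsk.comp continuous_snd))
    refine Seminorm.continuous_of_le hqc ?_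
    intro c
    have e2 : q c = C * T * (Rapid.sn k c.1 + Rapid.sn k c.2) := by rw [← hDc]; rfl
    rw [e2]
    show SchwartzMap.seminorm ℂ p n (F c) ≤ _
    have hsn : 0 ≤ Rapid.sn k c.1 + Rapid.sn k c.2 := add_nonneg (apply_nonneg _ _) (apply_nonneg _ _)
    apply SchwartzMap.seminorm_le_bound ℂ p n (F c) (by positivity)
    intro x
    have e3 : (⇑(F c)) = fun x => ∑' a, (m a c • φ a) x := funext (hF c)
    rw [e3]
    refine le_trans (semi_bd φ m h1 h2 p n c x) ?_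
    have e4 := (summable_semi φ m h1 h2 p n c).tsum_le_tsum (fun a => hbd a c)
      ((summable_sa.mul_left C).mul_right _)
    refine le_trans e4 (le_of_eq ?_)
    rw [tsum_mul_right, tsum_mul_left]
  refine ⟨⟨L, hcont⟩, ?_⟩
  intro c x
  have e5 : (⟨L, hcont⟩ : (Rapid × Rapid) →L[ℂ] 𝓢(ℝ, ℂ)) c = F c := rfl
  rw [e5, hF]
  exact (hsum c x).hasSum

end Q14.SF2
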