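import Pool.Agent.Q14.SF2.Key

/-! # Project SF of helper249 (MP_f612df_an): job TAI -/

set_option autoImplicit false

open MeasureTheory Real Set Filter Topology Q249.SF
open scoped FourierTransform SchwartzMap

namespace Q14.SF2

theorem polyGr_slope {K : ℕ} {w : ℝ → ℝ} (h : Slope K w) : PolyGr w := by
  obtain ⟨_, _, hm, hs⟩ := h
  refine ⟨w 1, K, fun x => ?_⟩
  have h0 := abs_nonneg x
  calc w x ≤ w ((1 + |x|) * 1) := hm _ _ (by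
        rw [mul_one, abs_of_nonneg (by linarith : 0 ≤ 1 + |x|)]; linarith)
    _ ≤ (1 + |x|) ^ K * w 1 := hs _ _ (by linarith)
    _ = _ := mul_comm _ _

theorem int_wt {g : ℝ → ℝ} (hg : Continuous g) {C : ℝ} {k : ℕ} (h : ∀ t, |g t| ≤ C * (1 + |t|) ^ k)
    (f : 𝓢(ℝ, ℂ)) : Integrable (fun t => g t * ‖f t‖ ^ 2) := by
  set S := SchwartzMap.seminorm ℝ 0 0 f with hS
  have hS0 : 0 ≤ S := apply_nonneg _ _
  have hfS : ∀ t, ‖f t‖ ≤ S := fun t => SchwartzMap.norm_le_seminorm ℝ f t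
  have hC : 0 ≤ C := by
    have := h 0
    rw [abs_zero, add_zero, one_pow, mul_one] at this
    exact le_trans (abs_nonneg _) this
  have h1 : Integrable (fun t : ℝ => C * 2 ^ k * S * (‖t‖ ^ 0 * ‖f t‖ + ‖t‖ ^ k * ‖f t‖)) :=
    ((f.integrable_pow_mul volume 0).add (f.integrable_pow_mul volume k)).const_mul _
  refine h1.mono' ?_ (Eventually.of_forall fun t => ?_)
  · exact (hg.mul (f.continuous.norm.pow 2)).aestronglyMeasurable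
  · rw [norm_mul, norm_pow, norm_norm, Real.norm_eq_abs, Real.norm_eq_abs, pow_zero, one_mul]
    have e1 : (1 + |t|) ^ k ≤ 2 ^ k * (1 + |t| ^ k) := by
      have e2 : 1 + |t| ≤ 2 * max 1 |t| := by
        have := le_max_left 1 |t|
        have := le_max_right 1 |t|
        linarith
      have e3 : (max 1 |t|) ^ k ≤ 1 + |t| ^ k := by
        rcases le_total 1 |t| with h2 | h2
        · rw [max_eq_right h2]; linarith
        · rw [max_eq_left h2, one_pow]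
          have : 0 ≤ |t| ^ k := by positivity
          linarith
      calc (1 + |t|) ^ k ≤ (2 * max 1 |t|) ^ k := pow_le_pow_left₀ (by positivity) e2 k
        _ = 2 ^ k * (max 1 |t|) ^ k := mul_pow _ _ _
        _ ≤ _ := mul_le_mul_of_nonneg_left e3 (by positivity)
    have e4 : |g t| ≤ C * (2 ^ k * (1 + |t| ^ k)) := le_trans (h t) (mul_le_mul_of_nonneg_left e1 hC)
    have e5 : ‖f t‖ ^ 2 ≤ S * ‖f t‖ := by
      rw [sq]
      exact mul_le_mul_of_nonneg_right (hfS t) (norm_nonneg _)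
    calc |g t| * ‖f t‖ ^ 2 ≤ (C * (2 ^ k * (1 + |t| ^ k))) * (S * ‖f t‖) :=
          mul_le_mul e4 e5 (by positivity) (by positivity)
      _ = _ := by ring

theorem node_bd {κ γ A N X : ℝ} (hκ : 0 ≤ κ) (hγ : 0 ≤ γ) (hA : 1 ≤ A) (hN : 1 ≤ N) (n : ℤ)
    (hX : |X| ≤ A * (1 + |(n : ℝ)|)) {e b : ℕ} (r : ℕ) (he : κ ≤ e) (hb : γ + 2 ≤ b) :
    (1 + |(n : ℝ)|) ^ 2 * ((1 + |X|) ^ (2 + 2 * γ) * cut κ N X ^ (2 * r)) ≤
      (2 * A) ^ (2 + 2 * γ) * (A ^ κ) ^ (2 * r) * dw b e N r n ^ 2 := by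
  set q : ℝ := 1 + |(n : ℝ)| with hq
  have hq1 : 1 ≤ q := by linarith [abs_nonneg (n : ℝ)]
  have hq0 : 0 < q := by linarith
  have hN0 : 0 < N := by linarith
  have hAκ : 1 ≤ A ^ κ := Real.one_le_rpow hA hκ
  have h1 : 1 + |X| ≤ 2 * A * q := by
    have : 1 ≤ A * q := by nlinarith
    linarith
  have h2 : (1 + |X|) ^ (2 + 2 * γ) ≤ (2 * A) ^ (2 + 2 * γ) * q ^ (2 + 2 * γ) := by
    rw [← Real.mul_rpow (by linarith) hq0.le]
    exact Real.rpow_le_rpow (by positivity) h1 (by linarith)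
  have h3 : q ^ 2 * q ^ (2 + 2 * γ) ≤ q ^ (2 * b) := by
    rw [← Real.rpow_natCast q 2, ← Real.rpow_add hq0, ← Real.rpow_natCast q (2 * b)]
    apply Real.rpow_le_rpow_of_exponent_le hq1
    push_cast
    linarith
  have h4 : cut κ N X ≤ A ^ κ * min 1 (q ^ e / N) := by
    unfold cut
    rw [mul_min_of_nonneg _ _ (by linarith), mul_one]
    apply le_min
    · exact le_trans (min_le_left _ _) hAκ
    · apply le_trans (min_le_right _ _)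
      rw [← mul_div_assoc]
      apply div_le_div_of_nonneg_right _ hN0.le
      calc |X| ^ κ ≤ (A * q) ^ κ := Real.rpow_le_rpow (abs_nonneg _) hX hκ
        _ = A ^ κ * q ^ κ := Real.mul_rpow (by linarith) hq0.le
        _ ≤ A ^ κ * q ^ e := by
          apply mul_le_mul_of_nonneg_left _ (by linarith)
          rw [← Real.rpow_natCast q e]
          exact Real.rpow_le_rpow_of_exponent_le hq1 he
  have hc0 : 0 ≤ cut κ N X := by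
    unfold cut
    exact le_min zero_le_one (by positivity)
  have h5 : cut κ N X ^ (2 * r) ≤ (A ^ κ) ^ (2 * r) * (min 1 (q ^ e / N)) ^ (2 * r) := by
    rw [← mul_pow]
    exact pow_le_pow_left₀ hc0 h4 _
  have hm0 : 0 ≤ min 1 (q ^ e / N) := le_min zero_le_one (by positivity)
  calc q ^ 2 * ((1 + |X|) ^ (2 + 2 * γ) * cut κ N X ^ (2 * r))
      ≤ q ^ 2 * (((2 * A) ^ (2 + 2 * γ) * q ^ (2 + 2 * γ)) * ((A ^ κ) ^ (2 * r) * (min 1 (q ^ e / N)) ^ (2 * r))) := by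
        apply mul_le_mul_of_nonneg_left _ (by positivity)
        exact mul_le_mul h2 h5 (by positivity) (by positivity)
    _ = (2 * A) ^ (2 + 2 * γ) * (A ^ κ) ^ (2 * r) * ((q ^ 2 * q ^ (2 + 2 * γ)) * (min 1 (q ^ e / N)) ^ (2 * r)) := by ring
    _ ≤ (2 * A) ^ (2 + 2 * γ) * (A ^ κ) ^ (2 * r) * (q ^ (2 * b) * (min 1 (q ^ e / N)) ^ (2 * r)) := by
        apply mul_le_mul_of_nonneg_left _ (by positivity)
        exact mul_le_mul_of_nonneg_right h3 (by positivity)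
    _ = _ := by
        unfold dw
        rw [mul_pow, ← pow_mul, ← pow_mul, mul_comm b 2, mul_comm r 2]

theorem av_nonneg {w : ℝ → ℝ} (h : ∀ x, 0 ≤ w x) (y : ℝ) : 0 ≤ av w y := by
  unfold av Q249.SF.ker
  exact integral_nonneg fun u => mul_nonneg (h _) (Real.exp_pos _).le

theorem av2_nonneg {w : ℝ → ℝ} (h : ∀ x, 0 ≤ w x) (y : ℝ) : 0 ≤ av2 w y := by
  unfold av2 Q249.SF.ker
  exact integral_nonneg fun u => mul_nonneg (h _) (mul_nonneg (sq_nonneg _) (Real.exp_pos _).le)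

theorem k0_pos : 0 < k0 := by
  unfold k0 Q249.SF.ker
  have h := integral_gaussian (2 * π)
  have e : (fun u : ℝ => Real.exp (-2 * π * u ^ 2)) = fun u : ℝ => Real.exp (-(2 * π) * u ^ 2) := by
    funext u
    ring_nf
  rw [e, h]
  exact Real.sqrt_pos.mpr (by positivity)

/-- continuity and growth of `PP` -/
theorem PP_cont (hWGR : S_WGR) {K K' : ℕ} {γ δ : ℝ} {w : ℝ → ℝ} (hw : Slope K w)
    (hup : Slope K' (up γ w)) : Continuous (PP δ γ w) := by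
  unfold PP
  exact ((hWGR.2 K' _ hup).1.const_mul _).add ((hWGR.2 K _ hw).2.const_mul _)

theorem PP_gr (hWGR : S_WGR) {K K' : ℕ} {γ δ : ℝ} (hδ : 0 < δ) {w : ℝ → ℝ} (hw : Slope K w)
    (hup : Slope K' (up γ w)) : ∃ (C : ℝ) (k : ℕ), ∀ t, |PP δ γ w t| ≤ C * (1 + |t|) ^ k := by
  obtain ⟨C1, k1, hC1, h1⟩ := hWGR.1 K'
  obtain ⟨C2, k2, hC2, h2⟩ := hWGR.1 K
  have hw1 := hw.2.1 1
  have hu1 := hup.2.1 1
  refine ⟨(1 + δ) * (C1 * up γ w 1) + (1 + 1 / δ) * (C2 * w 1), k1 + k2, fun t => ?_⟩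
  have e0 : (1 : ℝ) ≤ 1 + |t| := by linarith [abs_nonneg t]
  have e1 := (h1 _ hup t).1
  have e2 := (h2 _ hw t).2
  have e3 : 0 ≤ PP δ γ w t := by
    unfold PP
    have := av_nonneg hup.2.1 t
    have := av2_nonneg hw.2.1 t
    positivity
  rw [abs_of_nonneg e3]
  unfold PP
  have e4 : (1 + |t|) ^ k1 ≤ (1 + |t|) ^ (k1 + k2) := pow_le_pow_right₀ e0 (Nat.le_add_right _ _)
  have e5 : (1 + |t|) ^ k2 ≤ (1 + |t|) ^ (k1 + k2) := pow_le_pow_right₀ e0 (Nat.le_add_left _ _)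
  have e6 : C1 * up γ w 1 * (1 + |t|) ^ k1 ≤ C1 * up γ w 1 * (1 + |t|) ^ (k1 + k2) :=
    mul_le_mul_of_nonneg_left e4 (by positivity)
  have e7 : C2 * w 1 * (1 + |t|) ^ k2 ≤ C2 * w 1 * (1 + |t|) ^ (k1 + k2) :=
    mul_le_mul_of_nonneg_left e5 (by positivity)
  calc (1 + δ) * av (up γ w) t + (1 + 1 / δ) * av2 w t
      ≤ (1 + δ) * (C1 * up γ w 1 * (1 + |t|) ^ (k1 + k2)) + (1 + 1 / δ) * (C2 * w 1 * (1 + |t|) ^ (k1 + k2)) := by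
        apply add_le_add
        · exact mul_le_mul_of_nonneg_left (le_trans e1 e6) (by positivity)
        · exact mul_le_mul_of_nonneg_left (le_trans e2 e7) (by positivity)
    _ = _ := by ring

/-- the lower bound -/
theorem low {K K' : ℕ} {γ δ : ℝ} (hδ : 0 < δ) {w : ℝ → ℝ} (hWGR : S_WGR) (hw : Slope K w)
    (hup : Slope K' (up γ w)) (M : ℝ)
    (hM : ∀ t, M ≤ |t| → k0 * up γ w t ≤ (1 + δ) * av (up γ w) t) (f : 𝓢(ℝ, ℂ)) (S : Set ℝ)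
    (hS : MeasurableSet S) (hSM : ∀ t ∈ S, M ≤ |t| ∧ 1 ≤ up γ w t) :
    k0 * ∫ t in S, ‖f t‖ ^ 2 ≤ ∫ t, PP δ γ w t * ‖f t‖ ^ 2 := by
  obtain ⟨C, k, hC⟩ := PP_gr hWGR hδ hw hup
  have hint := int_wt (PP_cont hWGR (δ := δ) hw hup) hC f
  have hPP0 : ∀ t, 0 ≤ PP δ γ w t := by
    intro t
    unfold PP
    have := av_nonneg hup.2.1 t
    have := av2_nonneg hw.2.1 t
    positivity
  rw [← integral_const_mul]
  refine le_trans ?_ (setInt_le hint (fun t => mul_nonneg (hPP0 t) (by positivity)) S)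
  apply setIntegral_mono_on ((int_sq f).const_mul _).integrableOn hint.integrableOn hS
  intro t ht
  apply mul_le_mul_of_nonneg_right _ (by positivity)
  obtain ⟨h1, h2⟩ := hSM t ht
  have h3 := hM t h1
  have h4 := av2_nonneg hw.2.1 t
  have h5 : 0 ≤ (1 + 1 / δ) * av2 w t := by positivity
  unfold PP
  have h6 : k0 * 1 ≤ k0 * up γ w t := mul_le_mul_of_nonneg_left h2 k0_pos.le
  linarith

theorem t_TAI (hSID : S_SID) (hAWP : S_AWP) (hWTS : S_WTS) (hWUP : S_WUP) (hWGR : S_WGR)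
    (hSLO : S_SLO) (hGRO : S_GRO) : S_TAI := by
  intro α β θ x y hα hαβ hθ hθ1 hx hy
  have hβ : 0 < β := by
    by_contra h
    have : α * β ≤ 0 := mul_nonpos_of_nonneg_of_nonpos hα.le (not_lt.mp h)
    linarith
  obtain ⟨A1, hA1, hx'⟩ := hGRO α θ x hα hθ hθ1 hx
  obtain ⟨A2, hA2, hy'⟩ := hGRO β θ y hβ hθ hθ1 hy
  refine ⟨⌈α⌉₊ + ⌈β⌉₊ + 2, ⌈α⌉₊ + 1, ?_⟩
  have hαc : α ≤ (⌈α⌉₊ : ℝ) := Nat.le_ceil α
  have hβc : β ≤ (⌈β⌉₊ : ℝ) := Nat.le_ceil β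
  have hα0 : (0 : ℝ) ≤ (⌈α⌉₊ : ℝ) := Nat.cast_nonneg _
  have hβ0 : (0 : ℝ) ≤ (⌈β⌉₊ : ℝ) := Nat.cast_nonneg _
  intro r
  obtain ⟨K, hK⟩ := hWTS α β hα hαβ r
  obtain ⟨K1, hK1⟩ := hWUP α hα K
  obtain ⟨K2, hK2⟩ := hWUP β hβ K
  obtain ⟨C1, hC1, hS1⟩ := hSID α θ x hα hθ hθ1 hx K
  obtain ⟨C2, hC2, hS2⟩ := hSID β θ y hβ hθ hθ1 hy K
  set δ : ℝ := (1 - θ) / 4 with hδdef
  have hδ : 0 < δ := by rw [hδdef]; linarith
  obtain ⟨M1, hM1, hL1⟩ := hSLO K1 α δ hα hδ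
  obtain ⟨M2, hM2, hL2⟩ := hSLO K2 β δ hβ hδ
  set CA : ℝ := (α + β) * ((2 * A1) ^ (2 + 2 * α) * (A1 ^ α) ^ (2 * r)) with hCA
  set CB : ℝ := (α + β) * ((2 * A2) ^ (2 + 2 * β) * (A2 ^ (1 : ℝ)) ^ (2 * r)) with hCB
  have hA10 : 0 < A1 := by linarith
  have hA20 : 0 < A2 := by linarith
  have hCA0 : 0 ≤ CA := by positivity
  have hCB0 : 0 ≤ CB := by positivity
  set Q : ℝ := C1 * CA + C2 * CB + (C1 + C2) * (α + β) with hQ
  have hQ0 : 0 ≤ Q := by positivity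
  have hk0 := k0_pos
  have h1θ : 0 < 1 - θ := by linarith
  refine ⟨Q / (k0 * (1 - θ)), max M1 M2, by positivity, le_trans hM1 (le_max_left _ _), ?_⟩
  intro N hN f B hB hf hF
  have hN0 : 0 < N := by linarith
  obtain ⟨w₁, w₂, hw1, hw2, hineq, ha, hb, hc, hd, he1, he2⟩ := hK N hN
  have hu1 := hK1 w₁ hw1
  have hu2 := hK2 w₂ hw2
  have hI := SchwartzMap.integral_norm_sq_fourier f
  set I : ℝ := ∫ t, ‖f t‖ ^ 2 with hIdef
  have hI0 : 0 ≤ I := integral_nonneg fun t => by positivity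
  -- the node bounds
  have hB1 : ∀ n : ℤ, (1 + |(n : ℝ)|) ^ 2 * (up α w₁ (x n) * ‖f (x n)‖ ^ 2) ≤ CA * B ^ 2 := by
    intro n
    have e1 := node_bd (κ := α) (γ := α) hα.le hα.le hA1 hN n (hx' n) (e := ⌈α⌉₊ + 1)
      (b := ⌈α⌉₊ + ⌈β⌉₊ + 2) r (by push_cast; linarith) (by push_cast; linarith)
    have e2 := hc (x n)
    have e3 : (dw (⌈α⌉₊ + ⌈β⌉₊ + 2) (⌈α⌉₊ + 1) N r n * ‖f (x n)‖) ^ 2 ≤ B ^ 2 :=
      pow_le_pow_left₀ (mul_nonneg (dw_nonneg hN0.le r n) (norm_nonneg _)) (hf n) 2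
    calc (1 + |(n : ℝ)|) ^ 2 * (up α w₁ (x n) * ‖f (x n)‖ ^ 2)
        ≤ (1 + |(n : ℝ)|) ^ 2 * (((α + β) * (1 + |x n|) ^ (2 + 2 * α) * cut α N (x n) ^ (2 * r)) * ‖f (x n)‖ ^ 2) := by
          apply mul_le_mul_of_nonneg_left _ (by positivity)
          exact mul_le_mul_of_nonneg_right e2 (by positivity)
      _ = (α + β) * ((1 + |(n : ℝ)|) ^ 2 * ((1 + |x n|) ^ (2 + 2 * α) * cut α N (x n) ^ (2 * r))) * ‖f (x n)‖ ^ 2 := by ring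
      _ ≤ (α + β) * ((2 * A1) ^ (2 + 2 * α) * (A1 ^ α) ^ (2 * r) *
            dw (⌈α⌉₊ + ⌈β⌉₊ + 2) (⌈α⌉₊ + 1) N r n ^ 2) * ‖f (x n)‖ ^ 2 := by
          apply mul_le_mul_of_nonneg_right _ (by positivity)
          exact mul_le_mul_of_nonneg_left e1 (by positivity)
      _ = CA * (dw (⌈α⌉₊ + ⌈β⌉₊ + 2) (⌈α⌉₊ + 1) N r n * ‖f (x n)‖) ^ 2 := by rw [hCA]; ring
      _ ≤ _ := mul_le_mul_of_nonneg_left e3 hCA0
  have hB2 : ∀ n : ℤ, (1 + |(n : ℝ)|) ^ 2 * (up β w₂ (y n) * ‖(𝓕 f : 𝓢(ℝ, ℂ)) (y n)‖ ^ 2) ≤ CB * B ^ 2 := by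
    intro n
    have e1 := node_bd (κ := 1) (γ := β) zero_le_one hβ.le hA2 hN n (hy' n) (e := ⌈α⌉₊ + 1)
      (b := ⌈α⌉₊ + ⌈β⌉₊ + 2) r (by push_cast; linarith) (by push_cast; linarith)
    have e2 := hd (y n)
    have e3 : (dw (⌈α⌉₊ + ⌈β⌉₊ + 2) (⌈α⌉₊ + 1) N r n * ‖(𝓕 f : 𝓢(ℝ, ℂ)) (y n)‖) ^ 2 ≤ B ^ 2 :=
      pow_le_pow_left₀ (mul_nonneg (dw_nonneg hN0.le r n) (norm_nonneg _)) (hF n) 2
    calc (1 + |(n : ℝ)|) ^ 2 * (up β w₂ (y n) * ‖(𝓕 f : 𝓢(ℝ, ℂ)) (y n)‖ ^ 2)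
        ≤ (1 + |(n : ℝ)|) ^ 2 * (((α + β) * (1 + |y n|) ^ (2 + 2 * β) * cut 1 N (y n) ^ (2 * r)) * ‖(𝓕 f : 𝓢(ℝ, ℂ)) (y n)‖ ^ 2) := by
          apply mul_le_mul_of_nonneg_left _ (by positivity)
          exact mul_le_mul_of_nonneg_right e2 (by positivity)
      _ = (α + β) * ((1 + |(n : ℝ)|) ^ 2 * ((1 + |y n|) ^ (2 + 2 * β) * cut 1 N (y n) ^ (2 * r))) * ‖(𝓕 f : 𝓢(ℝ, ℂ)) (y n)‖ ^ 2 := by ring
      _ ≤ (α + β) * ((2 * A2) ^ (2 + 2 * β) * (A2 ^ (1 : ℝ)) ^ (2 * r) *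
            dw (⌈α⌉₊ + ⌈β⌉₊ + 2) (⌈α⌉₊ + 1) N r n ^ 2) * ‖(𝓕 f : 𝓢(ℝ, ℂ)) (y n)‖ ^ 2 := by
          apply mul_le_mul_of_nonneg_right _ (by positivity)
          exact mul_le_mul_of_nonneg_left e1 (by positivity)
      _ = CB * (dw (⌈α⌉₊ + ⌈β⌉₊ + 2) (⌈α⌉₊ + 1) N r n * ‖(𝓕 f : 𝓢(ℝ, ℂ)) (y n)‖) ^ 2 := by rw [hCB]; ring
      _ ≤ _ := mul_le_mul_of_nonneg_left e3 hCB0
  have s1 := hS1 w₁ hw1 f _ hB1
  have s2 := hS2 w₂ hw2 (𝓕 f : 𝓢(ℝ, ℂ)) _ hB2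
  rw [hI] at s2
  have s3 := hAWP f w₁ (up α w₁) w₂ (up β w₂) hw1.1 hu1.1 hw2.1 hu2.1 hw1.2.1 hu1.2.1 hw2.2.1
    hu2.2.1 (polyGr_slope hw1) (polyGr_slope hu1) (polyGr_slope hw2) (polyGr_slope hu2) hineq δ hδ
  -- the lower bounds
  have l1 := low (δ := δ) hδ hWGR hw1 hu1 (max M1 M2) (fun t ht => (hL1 _ hu1 t t
    (le_trans (le_max_left _ _) ht) (by rw [sub_self, abs_zero]; exact zero_le_one)).2) f
    {t : ℝ | max M1 M2 ≤ |t| ∧ N ≤ |t| ^ α} (by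
      apply MeasurableSet.inter
      · exact measurableSet_le measurable_const measurable_id.abs
      · exact measurableSet_le measurable_const (measurable_id.abs.pow_const α)) (by
      intro t ht
      exact ⟨ht.1, ha t (le_trans (le_trans hM1 (le_max_left _ _)) ht.1) ht.2⟩)
  have l2 := low (δ := δ) hδ hWGR hw2 hu2 (max M1 M2) (fun t ht => (hL2 _ hu2 t t
    (le_trans (le_max_right _ _) ht) (by rw [sub_self, abs_zero]; exact zero_le_one)).2) (𝓕 f : 𝓢(ℝ, ℂ))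
    {t : ℝ | max M1 M2 ≤ |t| ∧ N ≤ |t|} (by
      apply MeasurableSet.inter
      · exact measurableSet_le measurable_const measurable_id.abs
      · exact measurableSet_le measurable_const measurable_id.abs) (by
      intro t ht
      exact ⟨ht.1, hb t (le_trans (le_trans hM1 (le_max_left _ _)) ht.1) ht.2⟩)
  set T1 := ∫ t in {t : ℝ | max M1 M2 ≤ |t| ∧ N ≤ |t| ^ α}, ‖f t‖ ^ 2 with hT1
  set T2 := ∫ s in {s : ℝ | max M1 M2 ≤ |s| ∧ N ≤ |s|}, ‖(𝓕 f : 𝓢(ℝ, ℂ)) s‖ ^ 2 with hT2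
  set J1 := ∫ t, PP δ α w₁ t * ‖f t‖ ^ 2 with hJ1
  set J2 := ∫ t, PP δ β w₂ t * ‖(𝓕 f : 𝓢(ℝ, ℂ)) t‖ ^ 2 with hJ2
  set I1 := ∫ t, av w₁ t * ‖deriv f t‖ ^ 2 with hI1
  set I2 := ∫ t, av w₂ t * ‖deriv (𝓕 f : 𝓢(ℝ, ℂ)) t‖ ^ 2 with hI2
  have s3' : (1 / (4 * π ^ 2)) * (I1 + I2) ≤ J1 + J2 := s3
  set P1 := (1 / (4 * π ^ 2)) * I1 with hP1
  set P2 := (1 / (4 * π ^ 2)) * I2 with hP2
  have s4 : P1 + P2 ≤ J1 + J2 := by
    rw [hP1, hP2, ← mul_add]; exact s3'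
  have s1' : J1 ≤ θ * P1 + C1 * (CA * B ^ 2) + C1 * w₁ 1 * I := by
    have : θ * (1 / (4 * π ^ 2)) * I1 = θ * P1 := by rw [hP1]; ring
    rw [← this]; exact s1
  have s2' : J2 ≤ θ * P2 + C2 * (CB * B ^ 2) + C2 * w₂ 1 * I := by
    have : θ * (1 / (4 * π ^ 2)) * I2 = θ * P2 := by rw [hP2]; ring
    rw [← this]; exact s2
  set R : ℝ := (1 / N) ^ (2 * r) with hR
  have hR0 : 0 ≤ R := by positivity
  have hB20 : 0 ≤ B ^ 2 := by positivity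
  have s5 : C1 * w₁ 1 * I ≤ C1 * ((α + β) * R) * I :=
    mul_le_mul_of_nonneg_right (mul_le_mul_of_nonneg_left he1 hC1) hI0
  have s6 : C2 * w₂ 1 * I ≤ C2 * ((α + β) * R) * I :=
    mul_le_mul_of_nonneg_right (mul_le_mul_of_nonneg_left he2 hC2) hI0
  have s7 : θ * (P1 + P2) ≤ θ * (J1 + J2) := mul_le_mul_of_nonneg_left s4 hθ.le
  have s8 : (1 - θ) * (J1 + J2) ≤ (C1 * CA + C2 * CB) * B ^ 2 + ((C1 + C2) * (α + β)) * (R * I) := by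
    linarith
  have s9 : (1 - θ) * (J1 + J2) ≤ Q * (B ^ 2 + R * I) := by
    have hRI : 0 ≤ R * I := mul_nonneg hR0 hI0
    have h1 : 0 ≤ (C1 * CA + C2 * CB) * (R * I) := by positivity
    have h2 : 0 ≤ ((C1 + C2) * (α + β)) * B ^ 2 := by positivity
    rw [hQ]
    linarith
  have s10 : k0 * (T1 + T2) ≤ J1 + J2 := by rw [mul_add]; exact add_le_add l1 l2
  have s11 : (k0 * (1 - θ)) * (T1 + T2) ≤ Q * (B ^ 2 + R * I) := by
    calc (k0 * (1 - θ)) * (T1 + T2) = (1 - θ) * (k0 * (T1 + T2)) := by ring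
      _ ≤ (1 - θ) * (J1 + J2) := mul_le_mul_of_nonneg_left s10 h1θ.le
      _ ≤ _ := s9
  rw [div_mul_eq_mul_div, le_div_iff₀ (by positivity)]
  linarith

end Q14.SF2
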